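import Pool.Agent.H357R2.SI.Energy

set_option autoImplicit false

open Filter Topology

namespace Pool.Agent.W123.FS

open Pool.Agent.H357R2.SI

open Classical in
/-- the points at which the one-sided maximal function exceeds `τ` -/
noncomputable def MB (r : ℕ → ℝ) (τ : ℝ) (a W : ℕ) : Finset ℕ :=
  (Finset.Ico a W).filter (fun n => ∃ H : ℕ, 1 ≤ H ∧ n + H ≤ W ∧
    τ * H < ∑ m ∈ Finset.Ico n (n + H), r m)

lemma maximal_aux (r : ℕ → ℝ) (hr : ∀ n, 0 ≤ r n) (τ : ℝ) (hτ : 0 < τ) (W d : ℕ) :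
    ∀ a : ℕ, W - a = d → a ≤ W → τ * ((MB r τ a W).card : ℝ) ≤ ∑ m ∈ Finset.Ico a W, r m := by
  classical
  induction d using Nat.strong_induction_on with
  | _ d ih =>
    intro a hd haW
    rcases Nat.eq_or_lt_of_le haW with rfl | hlt
    · simp [MB]
    by_cases hbad : ∃ H : ℕ, 1 ≤ H ∧ a + H ≤ W ∧ τ * H < ∑ m ∈ Finset.Ico a (a + H), r m
    · obtain ⟨H, hH1, hHW, hH⟩ := hbad
      have h1 := ih (W - (a + H)) (by omega) (a + H) rfl hHW
      have h2 : MB r τ a W ⊆ Finset.Ico a (a + H) ∪ MB r τ (a + H) W := by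
        intro n hn
        unfold MB at hn ⊢
        rw [Finset.mem_filter, Finset.mem_Ico] at hn
        rw [Finset.mem_union, Finset.mem_Ico, Finset.mem_filter, Finset.mem_Ico]
        rcases Nat.lt_or_ge n (a + H) with h | h
        · exact Or.inl ⟨hn.1.1, h⟩
        · exact Or.inr ⟨⟨h, hn.1.2⟩, hn.2⟩
      have h3 := (Finset.card_le_card h2).trans (Finset.card_union_le _ _)
      rw [Nat.card_Ico, Nat.add_sub_cancel_left] at h3
      have h4 : ((MB r τ a W).card : ℝ) ≤ H + (MB r τ (a + H) W).card := by exact_mod_cast h3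
      have h5 := Finset.sum_Ico_consecutive r (show a ≤ a + H by omega) hHW
      calc τ * ((MB r τ a W).card : ℝ) ≤ τ * (H + (MB r τ (a + H) W).card) := by gcongr
        _ = τ * H + τ * (MB r τ (a + H) W).card := by ring
        _ ≤ ∑ m ∈ Finset.Ico a (a + H), r m + ∑ m ∈ Finset.Ico (a + H) W, r m := by linarith
        _ = _ := h5
    · have h1 := ih (W - (a + 1)) (by omega) (a + 1) rfl hlt
      have h2 : MB r τ a W ⊆ MB r τ (a + 1) W := by
        intro n hn
        unfold MB at hn ⊢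
        rw [Finset.mem_filter, Finset.mem_Ico] at hn ⊢
        refine ⟨⟨?_, hn.1.2⟩, hn.2⟩
        rcases Nat.eq_or_lt_of_le hn.1.1 with h | h
        · subst h
          exact absurd hn.2 hbad
        · exact h
      have h3 : ((MB r τ a W).card : ℝ) ≤ (MB r τ (a + 1) W).card := by
        exact_mod_cast Finset.card_le_card h2
      have h4 : ∑ m ∈ Finset.Ico (a + 1) W, r m ≤ ∑ m ∈ Finset.Ico a W, r m :=
        Finset.sum_le_sum_of_subset_of_nonneg (Finset.Ico_subset_Ico_left (by omega))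
          (fun i _ _ => hr i)
      calc τ * ((MB r τ a W).card : ℝ) ≤ τ * (MB r τ (a + 1) W).card := by gcongr
        _ ≤ _ := h1.trans h4

lemma maximal (r : ℕ → ℝ) (hr : ∀ n, 0 ≤ r n) (τ : ℝ) (hτ : 0 < τ) (W : ℕ) :
    τ * ((MB r τ 0 W).card : ℝ) ≤ ∑ m ∈ Finset.range W, r m := by
  have := maximal_aux r hr τ hτ W W 0 (by omega) (by omega)
  rwa [← Finset.range_eq_Ico] at this

lemma SZ_add (Z a b n : ℕ) : SZ Z (a + b) n = SZ Z a n + SZ Z b (n + a) := by
  by_cases h : n + a ≤ Z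
  · unfold SZ
    rw [min_eq_left h, ← add_assoc]
    exact (pc_add (by omega) (le_min (by omega) h)).symm
  · rw [SZ_zero (n := n + a) (by omega)]
    unfold SZ
    rw [min_eq_right (by omega), min_eq_right (by omega), add_zero]

lemma SZ_mul (Z lo M n : ℕ) : SZ Z (M * lo) n = ∑ r ∈ Finset.range M, SZ Z lo (n + r * lo) := by
  induction M with
  | zero => 
    simp only [zero_mul, Finset.range_zero, Finset.sum_empty]
    unfold SZ pc
    rw [Finset.Ioc_eq_empty (by simp), Finset.filter_empty, Finset.card_empty]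
  | succ M ih =>
    rw [Finset.sum_range_succ, ← ih, add_mul, one_mul, SZ_add]

lemma shift_energy (Z lo s : ℕ) :
    ∑ n ∈ Finset.range Z, (SZ Z lo (n + s) : ℝ) ^ 2 ≤ En Z lo := by
  have h3 : ∑ n ∈ Finset.range Z, (SZ Z lo (n + s) : ℝ) ^ 2 =
      ∑ n ∈ Finset.Ico s (Z + s), (SZ Z lo n : ℝ) ^ 2 := by
    rw [Finset.sum_Ico_eq_sum_range]
    have : Z + s - s = Z := by omega
    rw [this]
    apply Finset.sum_congr rfl
    intro n _
    rw [add_comm s n]
  rw [h3]
  have h4 : ∑ n ∈ Finset.Ico s (Z + s), (SZ Z lo n : ℝ) ^ 2 ≤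
      ∑ n ∈ Finset.range (Z + s), (SZ Z lo n : ℝ) ^ 2 := by
    apply Finset.sum_le_sum_of_subset_of_nonneg
    · intro n hn
      rw [Finset.mem_Ico] at hn
      exact Finset.mem_range.mpr hn.2
    · intro _ _ _; positivity
  have h5 : ∑ n ∈ Finset.range (Z + s), (SZ Z lo n : ℝ) ^ 2 = En Z lo := by
    unfold En
    symm
    apply Finset.sum_subset
    · intro n hn
      rw [Finset.mem_range] at hn ⊢
      omega
    · intro n _ hn
      rw [Finset.mem_range] at hn
      rw [SZ_zero (by omega)]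
      simp
  linarith

/-- variance identity -/
lemma drop (Z lo M : ℕ) : ∑ r ∈ Finset.range M, ∑ n ∈ Finset.range Z,
    ((M : ℝ) * SZ Z lo (n + r * lo) - SZ Z (M * lo) n) ^ 2 ≤
      (M : ℝ) ^ 3 * En Z lo - M * En Z (M * lo) := by
  have h1 : ∑ r ∈ Finset.range M, ∑ n ∈ Finset.range Z,
      ((M : ℝ) * SZ Z lo (n + r * lo) - SZ Z (M * lo) n) ^ 2 =
      (M : ℝ) ^ 2 * (∑ r ∈ Finset.range M, ∑ n ∈ Finset.range Z, (SZ Z lo (n + r * lo) : ℝ) ^ 2) -
      M * En Z (M * lo) := by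
    rw [Finset.sum_comm]
    have h2 : ∀ n, ∑ r ∈ Finset.range M,
        ((M : ℝ) * SZ Z lo (n + r * lo) - SZ Z (M * lo) n) ^ 2 =
        (M : ℝ) ^ 2 * ∑ r ∈ Finset.range M, (SZ Z lo (n + r * lo) : ℝ) ^ 2 -
        M * (SZ Z (M * lo) n : ℝ) ^ 2 := by
      intro n
      have h3 : (SZ Z (M * lo) n : ℝ) = ∑ r ∈ Finset.range M, (SZ Z lo (n + r * lo) : ℝ) := by
        rw [SZ_mul]; push_cast; rfl
      set S := (SZ Z (M * lo) n : ℝ) with hS
      have h4 : ∀ r, ((M : ℝ) * SZ Z lo (n + r * lo) - S) ^ 2 =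
          (M : ℝ) ^ 2 * (SZ Z lo (n + r * lo) : ℝ) ^ 2 -
          2 * M * S * (SZ Z lo (n + r * lo) : ℝ) + S ^ 2 := by
        intro r; ring
      simp only [h4]
      rw [Finset.sum_add_distrib, Finset.sum_sub_distrib, ← Finset.mul_sum, ← Finset.mul_sum, ← h3,
        Finset.sum_const, Finset.card_range, nsmul_eq_mul]
      ring
    rw [Finset.sum_congr rfl (fun n _ => h2 n), Finset.sum_sub_distrib, ← Finset.mul_sum,
      ← Finset.mul_sum]
    unfold En
    congr 1
    rw [Finset.sum_comm]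
  rw [h1]
  have h2 : ∑ r ∈ Finset.range M, ∑ n ∈ Finset.range Z, (SZ Z lo (n + r * lo) : ℝ) ^ 2 ≤
      M * En Z lo := by
    calc _ ≤ ∑ r ∈ Finset.range M, En Z lo :=
          Finset.sum_le_sum (fun r _ => shift_energy Z lo (r * lo))
      _ = M * En Z lo := by rw [Finset.sum_const, Finset.card_range, nsmul_eq_mul]
  have h3 : (M : ℝ) ^ 2 * (∑ r ∈ Finset.range M, ∑ n ∈ Finset.range Z,
      (SZ Z lo (n + r * lo) : ℝ) ^ 2) ≤ (M : ℝ) ^ 2 * (M * En Z lo) := by gcongr
  have h4 : (M : ℝ) ^ 2 * (M * En Z lo) = (M : ℝ) ^ 3 * En Z lo := by ring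
  linarith

/-- a good shift -/
lemma good_shift (Z lo M k : ℕ) (hk : 0 < k) (hkM : k ≤ M) (hlo : 0 < lo) :
    ∃ r < k, ∑ n ∈ Finset.range Z,
      ((SZ Z lo (n + r * lo) : ℝ) / lo - (SZ Z (M * lo) n : ℝ) / (M * lo : ℕ)) ^ 2 ≤
      (M : ℝ) / k * (En Z lo / (lo : ℝ) ^ 2 - En Z (M * lo) / ((M * lo : ℕ) : ℝ) ^ 2) := by
  by_contra hcon
  push Not at hcon
  have hM : (0 : ℝ) < M := by exact_mod_cast (by omega : 0 < M)
  have hlo' : (0 : ℝ) < lo := by exact_mod_cast hlo
  have hk' : (0 : ℝ) < k := by exact_mod_cast hk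
  set D : ℝ := En Z lo / (lo : ℝ) ^ 2 - En Z (M * lo) / ((M * lo : ℕ) : ℝ) ^ 2 with hD
  have h1 : ∀ r, ∑ n ∈ Finset.range Z,
      ((SZ Z lo (n + r * lo) : ℝ) / lo - (SZ Z (M * lo) n : ℝ) / (M * lo : ℕ)) ^ 2 =
      (1 / ((M : ℝ) * lo) ^ 2) * ∑ n ∈ Finset.range Z,
      ((M : ℝ) * SZ Z lo (n + r * lo) - SZ Z (M * lo) n) ^ 2 := by
    intro r
    rw [Finset.mul_sum]
    apply Finset.sum_congr rfl
    intro n _
    push_cast
    field_simp
  have h2 : ∑ r ∈ Finset.range k, (M : ℝ) / k * D <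
      ∑ r ∈ Finset.range k, (1 / ((M : ℝ) * lo) ^ 2) * ∑ n ∈ Finset.range Z,
      ((M : ℝ) * SZ Z lo (n + r * lo) - SZ Z (M * lo) n) ^ 2 := by
    apply Finset.sum_lt_sum_of_nonempty
    · exact ⟨0, Finset.mem_range.mpr hk⟩
    · intro r hr
      have := hcon r (Finset.mem_range.mp hr)
      rw [h1] at this
      exact this
  rw [Finset.sum_const, Finset.card_range, nsmul_eq_mul, ← Finset.mul_sum] at h2
  have h3 : ∑ r ∈ Finset.range k, ∑ n ∈ Finset.range Z,
      ((M : ℝ) * SZ Z lo (n + r * lo) - SZ Z (M * lo) n) ^ 2 ≤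
      (M : ℝ) ^ 3 * En Z lo - M * En Z (M * lo) := by
    refine le_trans ?_ (drop Z lo M)
    apply Finset.sum_le_sum_of_subset_of_nonneg
    · intro r hr
      rw [Finset.mem_range] at hr ⊢
      omega
    · intro r _ _
      exact Finset.sum_nonneg (fun n _ => sq_nonneg _)
  have h4 : (k : ℝ) * (M / k * D) = M * D := by field_simp
  rw [h4] at h2
  have h5 : (1 / ((M : ℝ) * lo) ^ 2) * ((M : ℝ) ^ 3 * En Z lo - M * En Z (M * lo)) = M * D := by
    rw [hD]
    push_cast
    field_simp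
  have h6 : (1 / ((M : ℝ) * lo) ^ 2) * ∑ r ∈ Finset.range k, ∑ n ∈ Finset.range Z,
      ((M : ℝ) * SZ Z lo (n + r * lo) - SZ Z (M * lo) n) ^ 2 ≤
      (1 / ((M : ℝ) * lo) ^ 2) * ((M : ℝ) ^ 3 * En Z lo - M * En Z (M * lo)) := by gcongr
  linarith

/-- double counting -/
lemma sum_pc (a b lo : ℕ) (hab : a ≤ b) :
    ∑ m ∈ Finset.Ico a b, pc m (m + lo) = ∑ j ∈ Finset.range lo, pc (a + j) (b + j) := by
  induction lo with
  | zero => simp [pc_self]
  | succ lo ih =>
    rw [Finset.sum_range_succ, ← ih]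
    have h1 : ∀ m, pc m (m + (lo + 1)) = pc m (m + lo) + pc (m + lo) (m + lo + 1) := by
      intro m
      rw [← add_assoc]
      exact (pc_add (by omega) (by omega)).symm
    rw [Finset.sum_congr rfl (fun m _ => h1 m), Finset.sum_add_distrib]
    congr 1
    clear ih h1
    induction b, hab using Nat.le_induction with
    | base => simp [pc_self]
    | succ b hb ih =>
      rw [Finset.sum_Ico_succ_top (by omega), ih]
      have := pc_add (a := a + lo) (b := b + lo) (c := b + lo + 1) (by omega) (by omega)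
      rw [this]
      congr 1
      omega

lemma pc_le_pc {a b a' b' : ℕ} (h1 : a ≤ a') (h2 : b' ≤ b) : pc a' b' ≤ pc a b :=
  (pc_anti h1).trans (pc_mono h2)

lemma sandwich_upper (n H lo : ℕ) (h : lo ≤ n) :
    lo * pc n (n + H) ≤ ∑ m ∈ Finset.Ico (n - lo) (n + H), pc m (m + lo) := by
  rw [sum_pc _ _ _ (by omega)]
  calc lo * pc n (n + H) = ∑ j ∈ Finset.range lo, pc n (n + H) := by
        rw [Finset.sum_const, Finset.card_range, smul_eq_mul]
    _ ≤ _ := by
        apply Finset.sum_le_sum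
        intro j hj
        rw [Finset.mem_range] at hj
        exact pc_le_pc (by omega) (by omega)

lemma sandwich_lower (n H lo : ℕ) (h : lo ≤ H) :
    ∑ m ∈ Finset.Ico n (n + H - lo), pc m (m + lo) ≤ lo * pc n (n + H) := by
  rw [sum_pc _ _ _ (by omega)]
  calc _ ≤ ∑ j ∈ Finset.range lo, pc n (n + H) := by
        apply Finset.sum_le_sum
        intro j hj
        rw [Finset.mem_range] at hj
        exact pc_le_pc (by omega) (by omega)
    _ = lo * pc n (n + H) := by
        rw [Finset.sum_const, Finset.card_range, smul_eq_mul]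

/-- windows of primes, first moment -/
lemma first_moment (N c w : ℕ) :
    ∑ n ∈ Finset.range N, pc (n + c) (n + c + w) ≤ w * pc 0 (N + c + w) := by
  have h1 : ∑ n ∈ Finset.range N, pc (n + c) (n + c + w) =
      ∑ m ∈ Finset.Ico c (N + c), pc m (m + w) := by
    rw [Finset.sum_Ico_eq_sum_range]
    have : N + c - c = N := by omega
    rw [this]
    apply Finset.sum_congr rfl
    intro n _
    rw [add_comm c n]
  rw [h1, sum_pc _ _ _ (by omega)]
  calc _ ≤ ∑ j ∈ Finset.range w, pc 0 (N + c + w) := by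
        apply Finset.sum_le_sum
        intro j hj
        rw [Finset.mem_range] at hj
        exact pc_le_pc (by omega) (by omega)
    _ = w * pc 0 (N + c + w) := by
        rw [Finset.sum_const, Finset.card_range, smul_eq_mul]

lemma markov (N c w : ℕ) (t : ℝ) (ht : 0 < t) :
    t * (((Finset.range N).filter (fun n => t < (pc (n + c) (n + c + w) : ℝ))).card : ℝ) ≤
      w * pc 0 (N + c + w) := by
  have h1 : (∑ n ∈ Finset.range N, (pc (n + c) (n + c + w) : ℝ)) ≤ w * pc 0 (N + c + w) := by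
    exact_mod_cast first_moment N c w
  refine le_trans ?_ h1
  rw [mul_comm, ← nsmul_eq_mul, ← Finset.sum_const, Finset.sum_filter]
  apply Finset.sum_le_sum
  intro n _
  split_ifs with h
  · exact h.le
  · positivity

lemma window_change {a n hi w : ℕ} (h1 : n ≤ a + w) (h2 : a ≤ n + w) (hw : w ≤ n) :
    |(pc a (a + hi) : ℝ) - pc n (n + hi)| ≤
      pc (n - w) (n + w) + pc (n + hi - w) (n + hi + w) := by
  rw [abs_le]
  rcases Nat.le_total n a with h | h
  · have e1 : pc n (n + hi) ≤ pc (n - w) (n + w) + pc a (a + hi) := by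
      calc pc n (n + hi) ≤ pc n (a + hi) := pc_mono (by omega)
        _ = pc n a + pc a (a + hi) := (pc_add h (by omega)).symm
        _ ≤ _ := Nat.add_le_add_right (pc_le_pc (by omega) (by omega)) _
    have e2 : pc a (a + hi) ≤ pc n (n + hi) + pc (n + hi - w) (n + hi + w) := by
      calc pc a (a + hi) ≤ pc n (a + hi) := pc_anti h
        _ = pc n (n + hi) + pc (n + hi) (a + hi) := (pc_add (by omega) (by omega)).symm
        _ ≤ _ := Nat.add_le_add_left (pc_le_pc (by omega) (by omega)) _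
    have e1' : (pc n (n + hi) : ℝ) ≤ pc (n - w) (n + w) + pc a (a + hi) := by exact_mod_cast e1
    have e2' : (pc a (a + hi) : ℝ) ≤ pc n (n + hi) + pc (n + hi - w) (n + hi + w) := by
      exact_mod_cast e2
    have e3 : (0 : ℝ) ≤ pc (n - w) (n + w) := Nat.cast_nonneg _
    have e4 : (0 : ℝ) ≤ pc (n + hi - w) (n + hi + w) := Nat.cast_nonneg _
    constructor <;> linarith
  · have e1 : pc n (n + hi) ≤ pc a (a + hi) + pc (n + hi - w) (n + hi + w) := by
      calc pc n (n + hi) ≤ pc a (n + hi) := pc_anti h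
        _ = pc a (a + hi) + pc (a + hi) (n + hi) := (pc_add (by omega) (by omega)).symm
        _ ≤ _ := Nat.add_le_add_left (pc_le_pc (by omega) (by omega)) _
    have e2 : pc a (a + hi) ≤ pc (n - w) (n + w) + pc n (n + hi) := by
      calc pc a (a + hi) ≤ pc a (n + hi) := pc_mono (by omega)
        _ = pc a n + pc n (n + hi) := (pc_add h (by omega)).symm
        _ ≤ _ := Nat.add_le_add_right (pc_le_pc (by omega) (by omega)) _
    have e1' : (pc n (n + hi) : ℝ) ≤ pc a (a + hi) + pc (n + hi - w) (n + hi + w) := by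
      exact_mod_cast e1
    have e2' : (pc a (a + hi) : ℝ) ≤ pc (n - w) (n + w) + pc n (n + hi) := by
      exact_mod_cast e2
    have e3 : (0 : ℝ) ≤ pc (n - w) (n + w) := Nat.cast_nonneg _
    have e4 : (0 : ℝ) ≤ pc (n + hi - w) (n + hi + w) := Nat.cast_nonneg _
    constructor <;> linarith

end Pool.Agent.W123.FS
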