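import Pool.Agent.W123.FS.Core

set_option autoImplicit false

open Filter Topology

namespace Pool.Agent.W123.FS

open Pool.Agent.H357R2.SI

/-- pointwise step: from the local comparison of scales to the comparison of all windows -/
lemma pointwise (N lo hi s w n H : ℕ) (c ρ : ℝ) (hlo : 1 ≤ lo)
    (hhi0 : 0 < hi) (hρ0 : 0 < ρ) (hρ1 : ρ ≤ 1) (rr : ℕ → ℝ) (hc : 0 < c)
    (hrr : ∀ m, s ≤ m → rr m = |(SZ (2 * N) lo m : ℝ) / lo - (SZ (2 * N) hi (m - s) : ℝ) / hi|)
    (hsw : s + lo ≤ w) (hwn : w ≤ n) (hnN : n < N) (hH1 : (lo : ℝ) ≤ ρ * H) (hHw : H ≤ w)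
    (hloH : lo < H) (hN1 : H + lo ≤ N) (hN2 : H + hi ≤ N)
    (hm1 : ∑ m ∈ Finset.Ico (n - lo) (n + H), rr m ≤ c * (H + lo))
    (hm2 : ∑ m ∈ Finset.Ico n (n + H - lo), rr m ≤ c * (H - lo))
    (hq : (pc (n - w) (n + w) : ℝ) + pc (n + hi - w) (n + hi + w) ≤ c * hi)
    (hg : ρ * (pc n (n + hi) : ℝ) ≤ c * hi) :
    |(pc n (n + H) : ℝ) / H - (pc n (n + hi) : ℝ) / hi| ≤ 8 * c := by
  set G : ℝ := (pc n (n + hi) : ℝ) / hi with hG
  have hhi' : (0 : ℝ) < hi := by exact_mod_cast hhi0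
  have hlo' : (0 : ℝ) < lo := by exact_mod_cast hlo
  have hH0 : (0 : ℝ) < H := by exact_mod_cast (by omega : 0 < H)
  have hlH : (lo : ℝ) < H := by exact_mod_cast hloH
  have hG0 : 0 ≤ G := by positivity
  have hρG : ρ * G ≤ c := by
    rw [hG, ← mul_div_assoc, div_le_iff₀ hhi']
    exact hg
  -- values of the smoothed density
  have key : ∀ m, n - lo ≤ m → m < n + H →
      |(pc m (m + lo) : ℝ) / lo - G| ≤ c + rr m := by
    intro m h1 h2
    have hs : s ≤ m := by omega
    have e1 := hrr m hs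
    rw [SZ_eq (by omega), SZ_eq (by omega)] at e1
    have e2 := window_change (a := m - s) (n := n) (hi := hi) (w := w) (by omega) (by omega) hwn
    have e3 : |(pc (m - s) (m - s + hi) : ℝ) / hi - G| ≤ c := by
      rw [hG, ← sub_div, abs_div, abs_of_pos hhi', div_le_iff₀ hhi']
      exact e2.trans hq
    have e4 : (pc m (m + lo) : ℝ) / lo - G =
        ((pc m (m + lo) : ℝ) / lo - (pc (m - s) (m - s + hi) : ℝ) / hi) +
        ((pc (m - s) (m - s + hi) : ℝ) / hi - G) := by ring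
    rw [e4]
    refine (abs_add_le _ _).trans ?_
    rw [← e1]
    linarith
  rw [abs_le]
  constructor
  · -- lower bound
    have h1 : (∑ m ∈ Finset.Ico n (n + H - lo), (pc m (m + lo) : ℝ)) ≤ lo * pc n (n + H) := by
      exact_mod_cast sandwich_lower n H lo hloH.le
    have h2 : ∑ m ∈ Finset.Ico n (n + H - lo), (lo : ℝ) * (G - c - rr m) ≤
        ∑ m ∈ Finset.Ico n (n + H - lo), (pc m (m + lo) : ℝ) := by
      apply Finset.sum_le_sum
      intro m hm
      rw [Finset.mem_Ico] at hm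
      have h3 := (abs_le.mp (key m (by omega) (by omega))).1
      have h4 : G - c - rr m ≤ (pc m (m + lo) : ℝ) / lo := by linarith
      rw [le_div_iff₀ hlo'] at h4
      linarith
    have h3 : ∑ m ∈ Finset.Ico n (n + H - lo), (lo : ℝ) * (G - c - rr m) =
        lo * (((H : ℝ) - lo) * (G - c) - ∑ m ∈ Finset.Ico n (n + H - lo), rr m) := by
      rw [← Finset.mul_sum, Finset.sum_sub_distrib, Finset.sum_const, Nat.card_Ico, nsmul_eq_mul]
      have : n + H - lo - n = H - lo := by omega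
      rw [this, Nat.cast_sub hloH.le]
    rw [h3] at h2
    have h4 : ((H : ℝ) - lo) * (G - c) - ∑ m ∈ Finset.Ico n (n + H - lo), rr m ≤ pc n (n + H) :=
      le_of_mul_le_mul_left (h2.trans h1) hlo'
    have h5 : G - 8 * c ≤ (pc n (n + H) : ℝ) / H := by
      rw [le_div_iff₀ hH0]
      have h6 : (lo : ℝ) * G ≤ c * H := by
        calc (lo : ℝ) * G ≤ (ρ * H) * G := by gcongr
          _ = (ρ * G) * H := by ring
          _ ≤ c * H := by gcongr
      nlinarith
    linarith
  · have h1 : (lo : ℝ) * pc n (n + H) ≤ ∑ m ∈ Finset.Ico (n - lo) (n + H), (pc m (m + lo) : ℝ) := by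
      exact_mod_cast sandwich_upper n H lo (by omega)
    have h2 : ∑ m ∈ Finset.Ico (n - lo) (n + H), (pc m (m + lo) : ℝ) ≤
        ∑ m ∈ Finset.Ico (n - lo) (n + H), (lo : ℝ) * (G + c + rr m) := by
      apply Finset.sum_le_sum
      intro m hm
      rw [Finset.mem_Ico] at hm
      have h3 := (abs_le.mp (key m hm.1 hm.2)).2
      have h4 : (pc m (m + lo) : ℝ) / lo ≤ G + c + rr m := by linarith
      rw [div_le_iff₀ hlo'] at h4
      linarith
    have h3 : ∑ m ∈ Finset.Ico (n - lo) (n + H), (lo : ℝ) * (G + c + rr m) =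
        lo * (((H : ℝ) + lo) * (G + c) + ∑ m ∈ Finset.Ico (n - lo) (n + H), rr m) := by
      rw [← Finset.mul_sum, Finset.sum_add_distrib, Finset.sum_const, Nat.card_Ico, nsmul_eq_mul]
      have : n + H - (n - lo) = H + lo := by omega
      rw [this]
      push_cast
      ring
    rw [h3] at h2
    have h4 : (pc n (n + H) : ℝ) ≤
        ((H : ℝ) + lo) * (G + c) + ∑ m ∈ Finset.Ico (n - lo) (n + H), rr m :=
      le_of_mul_le_mul_left (h1.trans h2) hlo'
    have h5 : (pc n (n + H) : ℝ) / H ≤ G + 8 * c := by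
      rw [div_le_iff₀ hH0]
      have h6 : (lo : ℝ) * G ≤ c * H := by
        calc (lo : ℝ) * G ≤ (ρ * H) * G := by gcongr
          _ = (ρ * G) * H := by ring
          _ ≤ c * H := by gcongr
      nlinarith
    linarith

lemma card_union6 (A B C D E F : Finset ℕ) :
    (A ∪ (B ∪ C) ∪ (D ∪ E) ∪ F).card ≤
      A.card + (B.card + C.card) + (D.card + E.card) + F.card := by
  have a1 := Finset.card_union_le (A ∪ (B ∪ C) ∪ (D ∪ E)) F
  have a2 := Finset.card_union_le (A ∪ (B ∪ C)) (D ∪ E)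
  have a3 := Finset.card_union_le A (B ∪ C)
  have a4 := Finset.card_union_le B C
  have a5 := Finset.card_union_le D E
  omega

open Classical in
/-- main estimate -/
lemma core (N lo M : ℕ) (L δ ρ δ₂ C₁ : ℝ) (hL : 0 < L) (hδ : 0 < δ) (hδ1 : δ ≤ 1) (hC₁ : 1 ≤ C₁)
    (hρ0 : 0 < ρ) (hρ : ρ * (2048 * C₁) ≤ δ ^ 2) (hδ₂' : δ₂ * 2 ^ 17 ≤ ρ * δ ^ 4)
    (hlo : 1 ≤ lo) (hlohi : (lo : ℝ) ≤ ρ * (M * lo : ℕ)) (hhi : ((M * lo : ℕ) : ℝ) * 2 ≤ N)
    (hpi : (pc 0 (3 * N) : ℝ) ≤ C₁ * N / L)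
    (hdrop : En (2 * N) lo / (lo : ℝ) ^ 2 - En (2 * N) (M * lo) / ((M * lo : ℕ) : ℝ) ^ 2 ≤
      δ₂ * N / L ^ 2) :
    (((Finset.range N).filter (fun n => ¬ ∀ H : ℕ, (lo : ℝ) ≤ ρ * H →
      (H : ℝ) ≤ ρ * (M * lo : ℕ) →
      |(pc n (n + H) : ℝ) / H - (pc n (n + M * lo) : ℝ) / (M * lo : ℕ)| ≤
        δ / (2 * L))).card : ℝ) ≤ δ * N := by
  classical
  set hi : ℕ := M * lo with hhidef
  have hlo' : (0 : ℝ) < lo := by exact_mod_cast hlo
  have hlo1 : (1 : ℝ) ≤ lo := by exact_mod_cast hlo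
  have hρsmall : ρ * 2048 ≤ δ := by
    have h1 : ρ * 2048 ≤ ρ * (2048 * C₁) := by
      apply mul_le_mul_of_nonneg_left _ hρ0.le
      linarith
    have h2 : δ ^ 2 ≤ δ := by nlinarith
    linarith
  have hρ1 : ρ ≤ 1 / 2048 := by linarith
  have hhi0r : (0 : ℝ) < hi := by
    by_contra h
    have h1 : (hi : ℝ) = 0 := le_antisymm (not_lt.mp h) (Nat.cast_nonneg _)
    rw [h1] at hlohi
    linarith
  have hhi0 : 0 < hi := by exact_mod_cast hhi0r
  have hM0 : 0 < M := Nat.pos_of_mul_pos_right hhi0 |> fun _ => by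
    rcases Nat.eq_zero_or_pos M with h | h
    · rw [hhidef, h, zero_mul] at hhi0
      exact absurd hhi0 (lt_irrefl 0)
    · exact h
  have hM0r : (0 : ℝ) < M := by exact_mod_cast hM0
  have hN0 : (0 : ℝ) < N := by linarith
  set Z : ℕ := 2 * N with hZ
  -- the shift
  set k : ℕ := ⌈ρ * (M : ℝ)⌉₊ with hk
  have hk0 : 0 < k := Nat.ceil_pos.mpr (by positivity)
  have hkM : k ≤ M := by
    apply Nat.ceil_le.mpr
    nlinarith
  have hkρ : ρ * M ≤ k := Nat.le_ceil _
  obtain ⟨r, hrk, hr⟩ := good_shift Z lo M k hk0 hkM hlo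
  rw [← hhidef] at hr
  set s : ℕ := r * lo with hs
  have hsr : (s : ℝ) ≤ ρ * hi := by
    have h1 : (r : ℝ) < ρ * M := Nat.lt_ceil.mp hrk
    rw [hs, hhidef]
    push_cast
    nlinarith
  set w : ℕ := ⌊2 * ρ * (hi : ℝ)⌋₊ with hw
  have hw1 : (w : ℝ) ≤ 2 * ρ * hi := Nat.floor_le (by positivity)
  have hsw : s + lo ≤ w := by
    apply Nat.le_floor
    push_cast
    linarith
  -- the comparison function
  set rr : ℕ → ℝ := fun m => if s ≤ m then
    |(SZ Z lo m : ℝ) / lo - (SZ Z hi (m - s) : ℝ) / hi| else 0 with hrr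
  have hrr0 : ∀ m, 0 ≤ rr m := by
    intro m
    simp only [hrr]
    split_ifs
    · exact abs_nonneg _
    · exact le_rfl
  have hrr1 : ∀ m, s ≤ m → rr m = |(SZ Z lo m : ℝ) / lo - (SZ Z hi (m - s) : ℝ) / hi| := by
    intro m hm
    simp only [hrr]
    rw [if_pos hm]
  have hsum : ∑ m ∈ Finset.range Z, rr m ≤
      ∑ n ∈ Finset.range Z, |(SZ Z lo (n + s) : ℝ) / lo - (SZ Z hi n : ℝ) / hi| := by
    have h1 : ∑ m ∈ Finset.range Z, rr m ≤ ∑ m ∈ Finset.range (s + Z), rr m := by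
      apply Finset.sum_le_sum_of_subset_of_nonneg
      · intro m hm
        rw [Finset.mem_range] at hm ⊢
        omega
      · intro m _ _
        exact hrr0 m
    rw [Finset.sum_range_add] at h1
    have h2 : ∑ m ∈ Finset.range s, rr m = 0 := by
      apply Finset.sum_eq_zero
      intro m hm
      rw [Finset.mem_range] at hm
      simp only [hrr]
      rw [if_neg (by omega)]
    rw [h2, zero_add] at h1
    refine h1.trans (le_of_eq ?_)
    apply Finset.sum_congr rfl
    intro n _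
    rw [hrr1 _ (by omega), Nat.add_sub_cancel_left, add_comm s n]
  set S₁ : ℝ := ∑ n ∈ Finset.range Z, |(SZ Z lo (n + s) : ℝ) / lo - (SZ Z hi n : ℝ) / hi| with hS₁
  have hS₁0 : 0 ≤ S₁ := Finset.sum_nonneg (fun _ _ => abs_nonneg _)
  have hCS : S₁ ^ 2 ≤ (Z : ℝ) * ∑ n ∈ Finset.range Z,
      ((SZ Z lo (n + s) : ℝ) / lo - (SZ Z hi n : ℝ) / hi) ^ 2 := by
    have h1 := sq_sum_le_card_mul_sum_sq (s := Finset.range Z)
      (f := fun n => |(SZ Z lo (n + s) : ℝ) / lo - (SZ Z hi n : ℝ) / hi|)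
    rw [Finset.card_range] at h1
    simp only [sq_abs] at h1
    exact h1
  have hr2 : ∑ n ∈ Finset.range Z,
      ((SZ Z lo (n + s) : ℝ) / lo - (SZ Z hi n : ℝ) / hi) ^ 2 ≤ 1 / ρ * (δ₂ * N / L ^ 2) := by
    have hnn : 0 ≤ ∑ n ∈ Finset.range Z,
      ((SZ Z lo (n + s) : ℝ) / lo - (SZ Z hi n : ℝ) / hi) ^ 2 :=
      Finset.sum_nonneg (fun _ _ => sq_nonneg _)
    have h1 : (M : ℝ) / k * (En Z lo / (lo : ℝ) ^ 2 - En Z hi / (hi : ℝ) ^ 2) ≤
        (M : ℝ) / k * (δ₂ * N / L ^ 2) := by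
      apply mul_le_mul_of_nonneg_left hdrop
      positivity
    have h2 := hr.trans h1
    have hk0r : (0 : ℝ) < k := by exact_mod_cast hk0
    have h3 : 0 ≤ δ₂ * N / L ^ 2 := by
      by_contra hneg
      push Not at hneg
      have : (M : ℝ) / k * (δ₂ * N / L ^ 2) < 0 := mul_neg_of_pos_of_neg (by positivity) hneg
      linarith
    refine h2.trans (mul_le_mul_of_nonneg_right ?_ h3)
    rw [div_le_div_iff₀ hk0r hρ0]
    linarith
  have hS₁b : S₁ ≤ δ ^ 2 * N / (256 * L) := by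
    have h1 : S₁ ^ 2 ≤ (δ ^ 2 * N / (256 * L)) ^ 2 := by
      refine hCS.trans ?_
      calc (Z : ℝ) * ∑ n ∈ Finset.range Z,
          ((SZ Z lo (n + s) : ℝ) / lo - (SZ Z hi n : ℝ) / hi) ^ 2
          ≤ (Z : ℝ) * (1 / ρ * (δ₂ * N / L ^ 2)) := by gcongr
        _ = 2 * N ^ 2 / L ^ 2 * (δ₂ / ρ) := by rw [hZ]; push_cast; field_simp
        _ ≤ 2 * N ^ 2 / L ^ 2 * (δ ^ 4 / 2 ^ 17) := by
            apply mul_le_mul_of_nonneg_left _ (by positivity)
            rw [div_le_div_iff₀ hρ0 (by positivity)]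
            linarith
        _ = (δ ^ 2 * N / (256 * L)) ^ 2 := by field_simp; ring
    exact (pow_le_pow_iff_left₀ hS₁0 (by positivity) (by norm_num)).mp h1
  set c : ℝ := δ / (16 * L) with hc
  have hc0 : 0 < c := by positivity
  have hMB := maximal rr hrr0 c hc0 Z
  have hMBc : ((MB rr c 0 Z).card : ℝ) ≤ δ * N / 16 := by
    have h1 : c * ((MB rr c 0 Z).card : ℝ) ≤ c * (δ * N / 16) := by
      calc _ ≤ _ := hMB.trans hsum
        _ ≤ _ := hS₁b
        _ = c * (δ * N / 16) := by rw [hc]; field_simp; ring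
    exact le_of_mul_le_mul_left h1 hc0
  -- first moments
  have hNhi : 2 * hi ≤ N := by
    have : ((2 * hi : ℕ) : ℝ) ≤ N := by push_cast; linarith
    exact_mod_cast this
  have hwN : 4 * w ≤ N := by
    have : ((4 * w : ℕ) : ℝ) ≤ N := by push_cast; nlinarith
    exact_mod_cast this
  have hmk : ∀ c' w' : ℕ, c' + w' ≤ 2 * N → ∀ t : ℝ, 0 < t →
      t * (((Finset.range N).filter (fun n => t < (pc (n + c') (n + c' + w') : ℝ))).card : ℝ) ≤
      w' * (C₁ * N / L) := by
    intro c' w' hcw t ht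
    refine (markov N c' w' t ht).trans ?_
    apply mul_le_mul_of_nonneg_left _ (Nat.cast_nonneg _)
    refine le_trans ?_ hpi
    exact_mod_cast pc_mono (by omega)
  set t3 : ℝ := c * hi / 2 with ht3
  have ht30 : 0 < t3 := by positivity
  set F1 := (Finset.range N).filter (fun n => t3 < (pc (n + 0) (n + 0 + 2 * w) : ℝ)) with hF1
  set F2 := (Finset.range N).filter (fun n => t3 < (pc (n + hi) (n + hi + 2 * w) : ℝ)) with hF2
  set t4 : ℝ := c * hi / ρ with ht4
  have ht40 : 0 < t4 := by positivity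
  set F3 := (Finset.range N).filter (fun n => t4 < (pc (n + 0) (n + 0 + hi) : ℝ)) with hF3
  have hF1c : (F1.card : ℝ) ≤ δ * N / 16 := by
    have h1 := hmk 0 (2 * w) (by omega) t3 ht30
    rw [← hF1] at h1
    have h2 : t3 * (F1.card : ℝ) ≤ t3 * (δ * N / 16) := by
      calc _ ≤ _ := h1
        _ ≤ (4 * ρ * hi) * (C₁ * N / L) := by
            apply mul_le_mul_of_nonneg_right _ (by positivity)
            push_cast
            linarith
        _ = (ρ * (2048 * C₁)) * (hi * N / (512 * L)) := by field_simp; ring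
        _ ≤ δ ^ 2 * (hi * N / (512 * L)) := by gcongr
        _ = t3 * (δ * N / 16) := by rw [ht3, hc]; field_simp; ring
    exact le_of_mul_le_mul_left h2 ht30
  have hF2c : (F2.card : ℝ) ≤ δ * N / 16 := by
    have h1 := hmk hi (2 * w) (by omega) t3 ht30
    rw [← hF2] at h1
    have h2 : t3 * (F2.card : ℝ) ≤ t3 * (δ * N / 16) := by
      calc _ ≤ _ := h1
        _ ≤ (4 * ρ * hi) * (C₁ * N / L) := by
            apply mul_le_mul_of_nonneg_right _ (by positivity)
            push_cast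
            linarith
        _ = (ρ * (2048 * C₁)) * (hi * N / (512 * L)) := by field_simp; ring
        _ ≤ δ ^ 2 * (hi * N / (512 * L)) := by gcongr
        _ = t3 * (δ * N / 16) := by rw [ht3, hc]; field_simp; ring
    exact le_of_mul_le_mul_left h2 ht30
  have hF3c : (F3.card : ℝ) ≤ δ * N / 128 := by
    have h1 := hmk 0 hi (by omega) t4 ht40
    rw [← hF3] at h1
    have h2 : t4 * (F3.card : ℝ) ≤ t4 * (δ * N / 128) := by
      calc _ ≤ _ := h1
        _ = (ρ * (2048 * C₁)) * (hi * N / (2048 * ρ * L)) := by field_simp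
        _ ≤ δ ^ 2 * (hi * N / (2048 * ρ * L)) := by gcongr
        _ = t4 * (δ * N / 128) := by rw [ht4, hc]; field_simp; ring
    exact le_of_mul_le_mul_left h2 ht40
  -- the union
  have hsub : ((Finset.range N).filter (fun n => ¬ ∀ H : ℕ, (lo : ℝ) ≤ ρ * H →
      (H : ℝ) ≤ ρ * hi →
      |(pc n (n + H) : ℝ) / H - (pc n (n + hi) : ℝ) / hi| ≤ δ / (2 * L))) ⊆
      Finset.range w ∪ (MB rr c 0 Z ∪ (MB rr c 0 Z).image (fun m => m + lo)) ∪
      (F1.image (fun m => m + w) ∪ F2.image (fun m => m + w)) ∪ F3 := by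
    intro n hn
    rw [Finset.mem_filter, Finset.mem_range] at hn
    obtain ⟨hnN, hn⟩ := hn
    by_contra hnot
    apply hn
    simp only [Finset.mem_union, Finset.mem_image, Finset.mem_range, not_or, not_exists,
      not_and] at hnot
    obtain ⟨⟨⟨hb1, hb2, hb3⟩, hb4, hb5⟩, hb6⟩ := hnot
    have hwn : w ≤ n := by omega
    intro H hH1 hH2
    have hHpos : (0 : ℝ) < H := by
      by_contra h
      have : (H : ℝ) = 0 := le_antisymm (not_lt.mp h) (Nat.cast_nonneg _)
      rw [this] at hH1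
      linarith
    have hloH : lo < H := by
      have : (lo : ℝ) < H := by nlinarith
      exact_mod_cast this
    have hHw : H ≤ w := by
      apply Nat.le_floor
      nlinarith
    have h8 : δ / (2 * L) = 8 * c := by rw [hc]; field_simp; norm_num
    rw [h8]
    refine pointwise N lo hi s w n H c ρ hlo hhi0 hρ0 (by linarith) rr hc0 hrr1 hsw hwn hnN hH1 hHw
      hloH (by omega) (by omega) ?_ ?_ ?_ ?_
    · have h1 := hb3 (n - lo)
      have h2 : n - lo ∉ MB rr c 0 Z := fun h => h1 h (by omega)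
      unfold MB at h2
      rw [Finset.mem_filter, Finset.mem_Ico] at h2
      by_contra hcon
      push Not at hcon
      apply h2
      refine ⟨⟨by omega, by omega⟩, H + lo, by omega, by omega, ?_⟩
      have e1 : n - lo + (H + lo) = n + H := by omega
      rw [e1]
      push_cast
      exact hcon
    · have h2 := hb2
      unfold MB at h2
      rw [Finset.mem_filter, Finset.mem_Ico] at h2
      by_contra hcon
      push Not at hcon
      apply h2
      refine ⟨⟨by omega, by omega⟩, H - lo, by omega, by omega, ?_⟩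
      have e1 : n + (H - lo) = n + H - lo := by omega
      rw [e1, Nat.cast_sub hloH.le]
      exact hcon
    · have h1 : n - w ∉ F1 := fun h => hb4 (n - w) h (by omega)
      have h2 : n - w ∉ F2 := fun h => hb5 (n - w) h (by omega)
      rw [hF1, Finset.mem_filter, Finset.mem_range] at h1
      rw [hF2, Finset.mem_filter, Finset.mem_range] at h2
      have h3 : (pc (n - w + 0) (n - w + 0 + 2 * w) : ℝ) ≤ t3 := by
        by_contra h
        exact h1 ⟨by omega, not_le.mp h⟩
      have h4 : (pc (n - w + hi) (n - w + hi + 2 * w) : ℝ) ≤ t3 := by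
        by_contra h
        exact h2 ⟨by omega, not_le.mp h⟩
      have e1 : n - w + 0 = n - w := by omega
      have e2 : n - w + 2 * w = n + w := by omega
      have e3 : n - w + hi = n + hi - w := by omega
      have e4 : n + hi - w + 2 * w = n + hi + w := by omega
      rw [e1, e2] at h3
      rw [e3, e4] at h4
      have : c * hi = t3 + t3 := by rw [ht3]; ring
      rw [this]
      linarith
    · rw [hF3, Finset.mem_filter, Finset.mem_range] at hb6
      have h3 : (pc (n + 0) (n + 0 + hi) : ℝ) ≤ t4 := by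
        by_contra h
        exact hb6 ⟨hnN, not_le.mp h⟩
      rw [add_zero, ht4, le_div_iff₀ hρ0] at h3
      linarith
  have hcard := Finset.card_le_card hsub
  have hc2 : ((Finset.range w ∪ (MB rr c 0 Z ∪ (MB rr c 0 Z).image (fun m => m + lo)) ∪
      (F1.image (fun m => m + w) ∪ F2.image (fun m => m + w)) ∪ F3).card : ℝ) ≤
      w + ((MB rr c 0 Z).card + (MB rr c 0 Z).card) + (F1.card + F2.card) + F3.card := by
    have a1 := card_union6 (Finset.range w) (MB rr c 0 Z) ((MB rr c 0 Z).image (fun m => m + lo))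
      (F1.image (fun m => m + w)) (F2.image (fun m => m + w)) F3
    have a6 : ((MB rr c 0 Z).image (fun m => m + lo)).card ≤ (MB rr c 0 Z).card :=
      Finset.card_image_le
    have a7 : (F1.image (fun m => m + w)).card ≤ F1.card := Finset.card_image_le
    have a8 : (F2.image (fun m => m + w)).card ≤ F2.card := Finset.card_image_le
    rw [Finset.card_range] at a1
    have a9 := a1.trans (Nat.add_le_add (Nat.add_le_add (Nat.add_le_add_left
      (Nat.add_le_add_left a6 _) _) (Nat.add_le_add a7 a8)) le_rfl)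
    exact_mod_cast a9
  have hfin : (((Finset.range N).filter (fun n => ¬ ∀ H : ℕ, (lo : ℝ) ≤ ρ * H →
      (H : ℝ) ≤ ρ * hi →
      |(pc n (n + H) : ℝ) / H - (pc n (n + hi) : ℝ) / hi| ≤ δ / (2 * L))).card : ℝ) ≤
      w + ((MB rr c 0 Z).card + (MB rr c 0 Z).card) + (F1.card + F2.card) + F3.card := by
    refine le_trans ?_ hc2
    exact_mod_cast hcard
  have hwδ : (w : ℝ) ≤ δ * N / 16 := by
    have h1 : 2 * ρ * (hi : ℝ) ≤ ρ * N := by nlinarith
    have h2 : ρ * N ≤ δ / 16 * N := by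
      apply mul_le_mul_of_nonneg_right _ hN0.le
      linarith
    linarith
  have hδN : 0 ≤ δ * N := by positivity
  linarith

end Pool.Agent.W123.FS
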