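import Pool.Agent.W123.FS.Main1

set_option autoImplicit false

open Filter Topology

namespace Pool.Agent.W123.FS

open Pool.Agent.H357R2.SI

lemma pc_le_len (n h : ℕ) : pc n (n + h) ≤ h := by
  unfold pc
  refine (Finset.card_filter_le _ _).trans ?_
  rw [Nat.card_Ioc]
  omega

/-- monotonicity of the normalised energy along powers of two -/
lemma en_anti (Z p q : ℕ) (h : p ≤ q) :
    En Z (2 ^ q) / ((2 ^ q : ℕ) : ℝ) ^ 2 ≤ En Z (2 ^ p) / ((2 ^ p : ℕ) : ℝ) ^ 2 := by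
  obtain ⟨k, rfl⟩ : ∃ k, q = p + k := ⟨q - p, by omega⟩
  have h1 := energy_sum Z p k
  have h2 : 0 ≤ ∑ i ∈ Finset.range k, Df Z (2 ^ (p + i)) / 4 ^ (p + i + 1) :=
    Finset.sum_nonneg (fun i _ => div_nonneg (Df_nonneg _ _) (by positivity))
  have h3 : ∀ r : ℕ, (((2 ^ r : ℕ) : ℝ)) ^ 2 = 4 ^ r := by
    intro r
    push_cast
    rw [← pow_mul, mul_comm, pow_mul]
    norm_num
  rw [h3, h3]
  linarith

/-- sums of differences of a nonnegative sequence -/
lemma diff_sum (e : ℕ → ℝ) (he : ∀ i, 0 ≤ e i) (m s : ℕ) :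
    ∑ i ∈ Finset.range m, (e i - e (s + i)) ≤ ∑ i ∈ Finset.range s, e i := by
  rw [Finset.sum_sub_distrib]
  have h1 := Finset.sum_range_add e s m
  have h2 : ∑ i ∈ Finset.range m, e i ≤ ∑ i ∈ Finset.range (s + m), e i := by
    apply Finset.sum_le_sum_of_subset_of_nonneg
    · intro i hi
      rw [Finset.mem_range] at hi ⊢
      omega
    · intro i _ _
      exact he i
  linarith

lemma pow_log_bounds (x : ℝ) (hx : 1 ≤ x) :
    ((2 ^ (Nat.log 2 ⌊x⌋₊) : ℕ) : ℝ) ≤ x ∧ x < 2 * ((2 ^ (Nat.log 2 ⌊x⌋₊) : ℕ) : ℝ) := by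
  have h1 : 1 ≤ ⌊x⌋₊ := Nat.le_floor (by simpa using hx)
  constructor
  · have h2 := Nat.pow_log_le_self 2 (x := ⌊x⌋₊) (by omega)
    have h3 : ((2 ^ (Nat.log 2 ⌊x⌋₊) : ℕ) : ℝ) ≤ (⌊x⌋₊ : ℝ) := by exact_mod_cast h2
    exact h3.trans (Nat.floor_le (by linarith))
  · have h2 := Nat.lt_pow_succ_log_self (b := 2) (by norm_num) ⌊x⌋₊
    have h3 : (⌊x⌋₊ : ℝ) + 1 ≤ ((2 ^ (Nat.log 2 ⌊x⌋₊).succ : ℕ) : ℝ) := by exact_mod_cast h2
    have h4 := Nat.lt_floor_add_one x
    have h5 : ((2 ^ (Nat.log 2 ⌊x⌋₊).succ : ℕ) : ℝ) = 2 * ((2 ^ (Nat.log 2 ⌊x⌋₊) : ℕ) : ℝ) := by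
      rw [pow_succ]
      push_cast
      ring
    linarith

lemma T_growth (R : ℕ) (T : ℕ → ℝ) (hT : ∀ i < R, 2 * T i ≤ T (i + 1)) (i j : ℕ)
    (h : i + j ≤ R) : 2 ^ j * T i ≤ T (i + j) := by
  induction j with
  | zero => simp
  | succ j ih =>
    have h1 := ih (by omega)
    have h2 := hT (i + j) (by omega)
    calc 2 ^ (j + 1) * T i = 2 * (2 ^ j * T i) := by rw [pow_succ]; ring
      _ ≤ 2 * T (i + j) := by linarith
      _ ≤ T (i + (j + 1)) := h2

lemma real_window {n : ℕ} {H L δ : ℝ} {K : ℕ} (hH : (K : ℝ) * L ≤ H) (hL : 0 < L) (hδ : 0 < δ)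
    (hK : 4 / δ ≤ K) (hH2 : 2 ≤ H) :
    |(piS n H : ℝ) / H - (pc n (n + ⌊H⌋₊) : ℝ) / (⌊H⌋₊ : ℝ)| ≤ δ / (4 * L) := by
  rw [piS_nat n H (by linarith)]
  set h : ℕ := ⌊H⌋₊ with hh
  have h1 : (h : ℝ) ≤ H := Nat.floor_le (by linarith)
  have h2 : H < h + 1 := Nat.lt_floor_add_one H
  have hh0 : (0 : ℝ) < h := by linarith
  have hH0 : (0 : ℝ) < H := by linarith
  have hpc : (pc n (n + h) : ℝ) ≤ h := by exact_mod_cast pc_le_len n h
  have hpc0 : (0 : ℝ) ≤ pc n (n + h) := Nat.cast_nonneg _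
  have hK0 : (0 : ℝ) < K := lt_of_lt_of_le (by positivity) hK
  have h3 : 1 / H ≤ δ / (4 * L) := by
    rw [div_le_div_iff₀ hH0 (by positivity)]
    rw [div_le_iff₀ hδ] at hK
    nlinarith
  refine le_trans ?_ h3
  rw [div_sub_div _ _ hH0.ne' hh0.ne', abs_div, abs_of_pos (mul_pos hH0 hh0),
    div_le_div_iff₀ (mul_pos hH0 hh0) hH0]
  have h4 : (pc n (n + h) : ℝ) * h - H * pc n (n + h) = -((H - h) * pc n (n + h)) := by ring
  rw [h4, abs_neg, abs_of_nonneg (mul_nonneg (by linarith) hpc0)]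
  have h5 : (H - h) * (pc n (n + h) : ℝ) ≤ 1 * h := by
    apply mul_le_mul (by linarith) hpc hpc0 (by norm_num)
  nlinarith

open Classical in
/-- the integers `n < N` for which the density of primes in `(n, n + H]` varies by more than
`δ / log N` when `H` runs over `[A, A']` -/
noncomputable def badset (δ : ℝ) (N : ℕ) (A A' : ℝ) : Finset ℕ :=
  (Finset.range N).filter (fun n : ℕ => ¬ ∀ H H' : ℝ, A ≤ H → H ≤ A' → A ≤ H' → H' ≤ A' →
    |(piS n H : ℝ) / H - (piS n H' : ℝ) / H'| ≤ δ / Real.log N)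

theorem chain1 (δ : ℝ) (hδ : 0 < δ) (hδ1 : δ ≤ 1) : ∃ K : ℕ, ∀ᶠ N : ℕ in atTop,
    ∀ (R : ℕ) (T : ℕ → ℝ), (K : ℝ) * Real.log N ≤ T 0 → (∀ i < R, 2 * T i ≤ T (i + 1)) →
      T R ≤ N → ∃ B : Finset ℕ, B.card ≤ K ∧ ∀ i < R, i ∉ B →
        ((badset δ N (T i) (T (i + 1))).card : ℝ) ≤ δ * N := by
  classical
  obtain ⟨C, hC1, N₁, hN₁3, hmom⟩ := second_moment_scales
  obtain ⟨X₁, hX₁3, hX₁⟩ := pnt 1 one_pos
  set δ' : ℝ := δ / 2 with hδ'
  have hδ'0 : 0 < δ' := by positivity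
  have hδ'1 : δ' ≤ 1 := by linarith
  set ρ : ℝ := δ' ^ 2 / (2048 * 6) with hρ
  have hρ0 : 0 < ρ := by positivity
  have hρ1 : ρ ≤ 1 / 12288 := by
    rw [hρ, div_le_div_iff₀ (by norm_num) (by norm_num)]
    nlinarith
  set δ₂ : ℝ := ρ * δ' ^ 4 / 2 ^ 17 with hδ₂
  have hδ₂0 : 0 < δ₂ := by positivity
  obtain ⟨s, hs⟩ : ∃ s : ℕ, 8 / ρ ^ 2 ≤ 2 ^ s := by
    obtain ⟨s, hs⟩ := pow_unbounded_of_one_lt (8 / ρ ^ 2) (by norm_num : (1 : ℝ) < 2)
    exact ⟨s, hs.le⟩
  set K : ℕ := ⌈4 / ρ⌉₊ + ⌈4 / δ⌉₊ + s + ⌈2 * C * s / δ₂⌉₊ with hK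
  have hKρ : 4 / ρ ≤ K := by
    have h1 := Nat.le_ceil (4 / ρ)
    rw [hK]; push_cast
    have := Nat.le_ceil (4 / δ)
    have : (0 : ℝ) ≤ ⌈4 / δ⌉₊ := Nat.cast_nonneg _
    have : (0 : ℝ) ≤ s := Nat.cast_nonneg _
    have : (0 : ℝ) ≤ ⌈2 * C * s / δ₂⌉₊ := Nat.cast_nonneg _
    linarith
  have hKδ : 4 / δ ≤ K := by
    have h1 := Nat.le_ceil (4 / δ)
    rw [hK]; push_cast
    have : (0 : ℝ) ≤ ⌈4 / ρ⌉₊ := Nat.cast_nonneg _
    have : (0 : ℝ) ≤ s := Nat.cast_nonneg _
    have : (0 : ℝ) ≤ ⌈2 * C * s / δ₂⌉₊ := Nat.cast_nonneg _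
    linarith
  refine ⟨K, ?_⟩
  have hlogN : Tendsto (fun N : ℕ => Real.log (N : ℝ)) atTop atTop :=
    Real.tendsto_log_atTop.comp tendsto_natCast_atTop_atTop
  filter_upwards [hlogN.eventually_ge_atTop 2, eventually_ge_atTop (max X₁ N₁),
    eventually_ge_atTop 3] with N hL2 hNm hN3
  intro R T hT0 hTd hTR
  set L : ℝ := Real.log N with hL
  have hL0 : 0 < L := by linarith
  have hNX : X₁ ≤ N := (le_max_left _ _).trans hNm
  have hNN : N₁ ≤ N := (le_max_right _ _).trans hNm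
  have hN3r : (3 : ℝ) ≤ N := by exact_mod_cast hN3
  have hN0 : (0 : ℝ) < N := by linarith
  have hK0 : (0 : ℝ) < K := lt_of_lt_of_le (by positivity) hKρ
  -- sizes of the T i
  have hTi : ∀ i ≤ R, (K : ℝ) * L ≤ T i := by
    intro i hi
    have h1 := T_growth R T hTd 0 i (by omega)
    rw [zero_add] at h1
    have h2 : (0 : ℝ) < K * L := by positivity
    have h3 : (1 : ℝ) ≤ 2 ^ i := one_le_pow₀ (by norm_num)
    nlinarith
  have hTN : ∀ i ≤ R, T i ≤ N := by
    intro i hi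
    have h1 := T_growth R T hTd i (R - i) (by omega)
    have h2 : i + (R - i) = R := by omega
    rw [h2] at h1
    have h3 : (1 : ℝ) ≤ 2 ^ (R - i) := one_le_pow₀ (by norm_num)
    have h4 : (0 : ℝ) < K * L := by positivity
    have h5 := hTi i hi
    nlinarith
  set a : ℝ := ρ / 2 with ha
  have ha0 : 0 < a := by positivity
  set p : ℕ → ℕ := fun i => Nat.log 2 ⌊a * T i⌋₊ with hp
  have haT : ∀ i ≤ R, 2 * L ≤ a * T i := by
    intro i hi
    have h1 : 2 / a ≤ K := by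
      have : 2 / a = 4 / ρ := by rw [ha]; field_simp; norm_num
      linarith
    rw [div_le_iff₀ ha0] at h1
    have h2 := hTi i hi
    have h3 : 2 * L ≤ (K * a) * L := by gcongr
    have h4 : a * (K * L) ≤ a * T i := by gcongr
    linarith
  have hpb : ∀ i ≤ R, ((2 ^ p i : ℕ) : ℝ) ≤ a * T i ∧ a * T i < 2 * ((2 ^ p i : ℕ) : ℝ) := by
    intro i hi
    apply pow_log_bounds
    have := haT i hi
    linarith
  have hpmono : ∀ i j, i ≤ j → j ≤ R → p i ≤ p j := by
    intro i j hij hj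
    apply Nat.log_mono_right
    apply Nat.floor_mono
    have h1 := T_growth R T hTd i (j - i) (by omega)
    have h2 : i + (j - i) = j := by omega
    rw [h2] at h1
    have h3 : (1 : ℝ) ≤ 2 ^ (j - i) := one_le_pow₀ (by norm_num)
    have h4 : (0 : ℝ) < K * L := by positivity
    have h5 := hTi i (by omega)
    have h6 : T i ≤ T j := by nlinarith
    exact mul_le_mul_of_nonneg_left h6 ha0.le
  set Z : ℕ := 2 * N with hZ
  set e : ℕ → ℝ := fun i => En Z (2 ^ p i) / ((2 ^ p i : ℕ) : ℝ) ^ 2 with he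
  have he0 : ∀ i, 0 ≤ e i := fun i => div_nonneg (En_nonneg _ _) (by positivity)
  have hemono : ∀ i j, i ≤ j → j ≤ R → e j ≤ e i := fun i j hij hj =>
    en_anti Z (p i) (p j) (hpmono i j hij hj)
  have hebound : e 0 ≤ 2 * C * N / L ^ 2 := by
    have h1 := hpb 0 (by omega)
    have h2 := haT 0 (by omega)
    have hlogZ : L ≤ Real.log (Z : ℝ) := by
      apply Real.log_le_log hN0
      rw [hZ]; push_cast; linarith
    have hlogZ2 : Real.log (Z : ℝ) ≤ 2 * L := by
      have h3 : Real.log (Z : ℝ) = Real.log 2 + L := by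
        rw [hZ]; push_cast
        rw [Real.log_mul (by norm_num) hN0.ne']
      have h4 : Real.log 2 ≤ 1 := by
        have := Real.log_two_lt_d9
        norm_num at this ⊢
        linarith
      linarith
    have h3 := hmom Z (2 ^ p 0) (by omega) (by linarith [h1.2]) (by
      have h5 : ((2 ^ p 0 : ℕ) : ℝ) ≤ N := by
        have h6 := hTN 0 (by omega)
        have h7 := hTi 0 (by omega)
        have h8 : (0 : ℝ) < K * L := by positivity
        nlinarith [h1.1]
      have h6 : 2 ^ p 0 ≤ N := by exact_mod_cast h5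
      omega)
    have h4 : En Z (2 ^ p 0) ≤ ∑ n ∈ Finset.range Z, ((pc n (n + 2 ^ p 0) : ℝ)) ^ 2 := by
      unfold En
      apply Finset.sum_le_sum
      intro n _
      have : (SZ Z (2 ^ p 0) n : ℝ) ≤ pc n (n + 2 ^ p 0) := by exact_mod_cast SZ_le
      gcongr
    have h5 := h4.trans h3
    rw [he]
    simp only
    have hpos : (0 : ℝ) < ((2 ^ p 0 : ℕ) : ℝ) ^ 2 := by positivity
    rw [div_le_iff₀ hpos]
    refine h5.trans ?_
    have h6 : C * (Z : ℝ) * ((2 ^ p 0 : ℕ) : ℝ) ^ 2 / Real.log (Z : ℝ) ^ 2 ≤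
        C * (Z : ℝ) * ((2 ^ p 0 : ℕ) : ℝ) ^ 2 / L ^ 2 := by
      apply div_le_div_of_nonneg_left (by positivity) (by positivity)
      gcongr
    refine h6.trans (le_of_eq ?_)
    rw [hZ]; push_cast; ring
  -- bad indices
  set m : ℕ := R + 1 - s with hm
  set B₂ := (Finset.range m).filter (fun i => δ₂ * N / L ^ 2 < e i - e (s + i)) with hB₂
  set B₁ := Finset.Ico m R with hB₁
  refine ⟨B₁ ∪ B₂, ?_, ?_⟩
  · -- cardinality
    have h1 : B₁.card ≤ s := by
      rw [hB₁, Nat.card_Ico]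
      omega
    have h2 : (B₂.card : ℝ) * (δ₂ * N / L ^ 2) ≤ s * (2 * C * N / L ^ 2) := by
      have h3 : (B₂.card : ℝ) * (δ₂ * N / L ^ 2) ≤ ∑ i ∈ B₂, (e i - e (s + i)) := by
        rw [← nsmul_eq_mul, ← Finset.sum_const]
        apply Finset.sum_le_sum
        intro i hi
        rw [hB₂, Finset.mem_filter] at hi
        exact hi.2.le
      have h4 : ∑ i ∈ B₂, (e i - e (s + i)) ≤ ∑ i ∈ Finset.range m, (e i - e (s + i)) := by
        apply Finset.sum_le_sum_of_subset_of_nonneg (Finset.filter_subset _ _)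
        intro i hi _
        rw [Finset.mem_range] at hi
        have := hemono i (s + i) (by omega) (by omega)
        linarith
      have h5 := diff_sum e he0 m s
      by_cases hm0 : m = 0
      · have : B₂ = ∅ := by
          rw [hB₂, hm0]; simp
        rw [this]
        simp only [Finset.card_empty, Nat.cast_zero, zero_mul]
        positivity
      have h6 : ∑ i ∈ Finset.range s, e i ≤ s * (2 * C * N / L ^ 2) := by
        calc ∑ i ∈ Finset.range s, e i ≤ ∑ i ∈ Finset.range s, (2 * C * N / L ^ 2) := by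
              apply Finset.sum_le_sum
              intro i hi
              rw [Finset.mem_range] at hi
              exact (hemono 0 i (by omega) (by omega)).trans hebound
          _ = s * (2 * C * N / L ^ 2) := by
              rw [Finset.sum_const, Finset.card_range, nsmul_eq_mul]
      linarith
    have h3 : (B₂.card : ℝ) ≤ 2 * C * s / δ₂ := by
      rw [le_div_iff₀ hδ₂0]
      have h4 : (0 : ℝ) < N / L ^ 2 := by positivity
      have h5 : (B₂.card : ℝ) * δ₂ * (N / L ^ 2) ≤ 2 * C * s * (N / L ^ 2) := by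
        calc (B₂.card : ℝ) * δ₂ * (N / L ^ 2) = (B₂.card : ℝ) * (δ₂ * N / L ^ 2) := by ring
          _ ≤ s * (2 * C * N / L ^ 2) := h2
          _ = _ := by ring
      exact le_of_mul_le_mul_right h5 h4
    have h4 : B₂.card ≤ ⌈2 * C * s / δ₂⌉₊ := by
      have := h3.trans (Nat.le_ceil _)
      exact_mod_cast this
    have h5 := Finset.card_union_le B₁ B₂
    omega
  · intro i hiR hiB
    rw [Finset.mem_union, not_or] at hiB
    obtain ⟨hi1, hi2⟩ := hiB
    rw [hB₁, Finset.mem_Ico] at hi1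
    rw [hB₂, Finset.mem_filter, Finset.mem_range] at hi2
    have him : i < m := by
      by_contra h
      exact hi1 ⟨by omega, hiR⟩
    have hsi : s + i ≤ R := by omega
    have hdrop : e i - e (s + i) ≤ δ₂ * N / L ^ 2 := by
      by_contra h
      exact hi2 ⟨him, not_le.mp h⟩
    have hpp := hpmono i (s + i) (by omega) hsi
    obtain ⟨q, hq⟩ : ∃ q, p (s + i) = q + p i := ⟨p (s + i) - p i, by omega⟩
    have hMlo : 2 ^ q * 2 ^ p i = 2 ^ p (s + i) := by rw [hq, pow_add]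
    have hb1 := hpb i (by omega)
    have hb2 := hpb (s + i) hsi
    have hT1 := hTi i (by omega)
    have hKL : (0 : ℝ) < K * L := by positivity
    have hTpos : 0 < T i := by linarith
    -- the big scale
    have hbig : T (i + 1) ≤ ρ * ((2 ^ p (s + i) : ℕ) : ℝ) := by
      rcases Nat.eq_zero_or_pos s with hs0 | hs0
      · exfalso
        rw [hs0, pow_zero] at hs
        have h1 : (8 : ℝ) ≤ ρ ^ 2 := by
          rw [div_le_iff₀ (by positivity)] at hs
          linarith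
        nlinarith
      have h1 := T_growth R T hTd (i + 1) (s - 1) (by omega)
      have h2 : i + 1 + (s - 1) = s + i := by omega
      rw [h2] at h1
      have h3 : (2 : ℝ) ^ s = 2 * 2 ^ (s - 1) := by
        rw [← pow_succ']
        congr 1
        omega
      have h4 : 4 / ρ ^ 2 ≤ (2 : ℝ) ^ (s - 1) := by
        rw [h3] at hs
        have : 8 / ρ ^ 2 = 2 * (4 / ρ ^ 2) := by ring
        linarith
      rw [div_le_iff₀ (by positivity)] at h4
      have hT2 := hTi (i + 1) (by omega)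
      have hTpos2 : 0 < T (i + 1) := by linarith
      -- T (i+1) ≤ ρ^2 /4 * 2^(s-1) T(i+1) ≤ ρ^2/4 T(s+i) = ρ/2 * a T(s+i) ≤ ρ * 2^p
      calc T (i + 1) ≤ T (i + 1) * ((2 : ℝ) ^ (s - 1) * ρ ^ 2 / 4) := by
            have : (1 : ℝ) ≤ (2 : ℝ) ^ (s - 1) * ρ ^ 2 / 4 := by linarith
            nlinarith
        _ = ρ ^ 2 / 4 * (2 ^ (s - 1) * T (i + 1)) := by ring
        _ ≤ ρ ^ 2 / 4 * T (s + i) := by gcongr
        _ = ρ / 2 * (a * T (s + i)) := by rw [ha]; ring
        _ ≤ ρ / 2 * (2 * ((2 ^ p (s + i) : ℕ) : ℝ)) := by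
            apply mul_le_mul_of_nonneg_left hb2.2.le (by positivity)
        _ = _ := by ring
    have hTii : T i ≤ T (i + 1) := by
      have := hTd i hiR
      linarith
    have hcore := core N (2 ^ p i) (2 ^ q) L δ' ρ δ₂ 6 hL0 hδ'0 hδ'1 (by norm_num) hρ0
      (by rw [hρ]; apply le_of_eq; field_simp) (by rw [hδ₂]; apply le_of_eq; field_simp)
      (Nat.one_le_two_pow) (by
        rw [hMlo]
        have h1 : a * T i ≤ T i := by
          have : a ≤ 1 := by rw [ha]; linarith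
          nlinarith
        linarith [hb1.1]) (by
        rw [hMlo]
        have h1 := hTN (s + i) hsi
        have h2 : a ≤ 1 / 2 := by rw [ha]; linarith
        have h3 := hTi (s + i) hsi
        have h4 : 0 < T (s + i) := by linarith
        nlinarith [hb2.1]) (by
        rw [pc_zero]
        refine ((hX₁ (3 * N) (by omega)).2).trans ?_
        have h1 : L ≤ Real.log ((3 * N : ℕ) : ℝ) := by
          apply Real.log_le_log hN0
          push_cast; linarith
        calc (1 + 1) * ((3 * N : ℕ) : ℝ) / Real.log ((3 * N : ℕ) : ℝ) ≤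
            (1 + 1) * ((3 * N : ℕ) : ℝ) / L := by
              apply div_le_div_of_nonneg_left (by positivity) hL0 h1
          _ = 6 * N / L := by push_cast; ring) (by
        rw [hMlo]
        have h1 : e i - e (s + i) = En (2 * N) (2 ^ p i) / ((2 ^ p i : ℕ) : ℝ) ^ 2 -
          En (2 * N) (2 ^ p (s + i)) / ((2 ^ p (s + i) : ℕ) : ℝ) ^ 2 := rfl
        rw [← h1]
        exact hdrop)
    rw [hMlo] at hcore
    have hsub : badset δ N (T i) (T (i + 1)) ⊆ ((Finset.range N).filter (fun n => ¬ ∀ H : ℕ,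
        ((2 ^ p i : ℕ) : ℝ) ≤ ρ * H → (H : ℝ) ≤ ρ * (2 ^ p (s + i) : ℕ) →
        |(pc n (n + H) : ℝ) / H - (pc n (n + 2 ^ p (s + i)) : ℝ) / (2 ^ p (s + i) : ℕ)| ≤
          δ' / (2 * L))) := by
      intro n hn
      unfold badset at hn
      rw [Finset.mem_filter] at hn ⊢
      refine ⟨hn.1, fun hgood => hn.2 ?_⟩
      have key : ∀ H : ℝ, T i ≤ H → H ≤ T (i + 1) →
          |(piS n H : ℝ) / H - (pc n (n + 2 ^ p (s + i)) : ℝ) / (2 ^ p (s + i) : ℕ)| ≤
            δ / (2 * L) := by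
        intro H h1 h2
        have hK4 : (4 : ℝ) ≤ K := by
          have : (4 : ℝ) ≤ 4 / δ := by
            rw [le_div_iff₀ hδ]
            linarith
          linarith
        have hH2 : 2 ≤ H := by
          have : (4 : ℝ) * 2 ≤ K * L := by gcongr
          linarith
        have h3 := real_window (n := n) (H := H) (L := L) (δ := δ) (K := K) (by linarith) hL0 hδ hKδ
          hH2
        have h4 : (⌊H⌋₊ : ℝ) ≤ H := Nat.floor_le (by linarith)
        have h5 : H < (⌊H⌋₊ : ℝ) + 1 := Nat.lt_floor_add_one H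
        have h6 := hgood ⌊H⌋₊ (by
          have h7 : H ≤ 2 * (⌊H⌋₊ : ℝ) := by linarith
          have h8 : ρ * H ≤ ρ * (2 * (⌊H⌋₊ : ℝ)) := by gcongr
          have h9 : ρ * T i ≤ ρ * H := by gcongr
          have h10 : a * T i = ρ * T i / 2 := by rw [ha]; ring
          linarith [hb1.1]) (by linarith)
        have h7 : δ' / (2 * L) = δ / (4 * L) := by rw [hδ']; field_simp; norm_num
        rw [h7] at h6
        have h8 : (piS n H : ℝ) / H - (pc n (n + 2 ^ p (s + i)) : ℝ) / (2 ^ p (s + i) : ℕ) =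
          ((piS n H : ℝ) / H - (pc n (n + ⌊H⌋₊) : ℝ) / (⌊H⌋₊ : ℝ)) +
          ((pc n (n + ⌊H⌋₊) : ℝ) / (⌊H⌋₊ : ℝ) -
            (pc n (n + 2 ^ p (s + i)) : ℝ) / (2 ^ p (s + i) : ℕ)) := by ring
        rw [h8]
        refine (abs_add_le _ _).trans ?_
        have h9 : δ / (2 * L) = δ / (4 * L) + δ / (4 * L) := by field_simp; norm_num
        rw [h9]
        exact add_le_add h3 h6
      intro H H' h1 h2 h3 h4
      have k1 := key H h1 h2
      have k2 := key H' h3 h4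
      have k3 : (piS n H : ℝ) / H - (piS n H' : ℝ) / H' =
        ((piS n H : ℝ) / H - (pc n (n + 2 ^ p (s + i)) : ℝ) / (2 ^ p (s + i) : ℕ)) -
        ((piS n H' : ℝ) / H' - (pc n (n + 2 ^ p (s + i)) : ℝ) / (2 ^ p (s + i) : ℕ)) := by ring
      rw [k3]
      refine (abs_sub _ _).trans ?_
      have h9 : δ / L = δ / (2 * L) + δ / (2 * L) := by field_simp; norm_num
      rw [h9]
      exact add_le_add k1 k2
    refine (Nat.cast_le.mpr (Finset.card_le_card hsub)).trans (hcore.trans ?_)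
    apply mul_le_mul_of_nonneg_right _ hN0.le
    linarith

end Pool.Agent.W123.FS
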