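import Pool.Agent.W123.FS.Main2
import Pool.Agent.Results.MP_31d0eb_nt.AllScales

set_option autoImplicit false

open Filter Topology

namespace Pool.Agent.W123.FS

open Pool.Agent.H357R2.SI

theorem chain (δ : ℝ) (hδ : 0 < δ) : ∃ K : ℕ, ∀ᶠ N : ℕ in atTop,
    ∀ (R : ℕ) (T : ℕ → ℝ), (K : ℝ) * Real.log N ≤ T 0 → (∀ i < R, 2 * T i ≤ T (i + 1)) →
      T R ≤ N → ∃ B : Finset ℕ, B.card ≤ K ∧ ∀ i < R, i ∉ B →
        ((badset δ N (T i) (T (i + 1))).card : ℝ) ≤ δ * N := by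
  classical
  obtain ⟨K, hK⟩ := chain1 (min δ 1) (lt_min hδ one_pos) (min_le_right _ _)
  refine ⟨K, ?_⟩
  filter_upwards [hK, eventually_ge_atTop 1] with N hN hN1 R T h1 h2 h3
  obtain ⟨B, hB, h⟩ := hN R T h1 h2 h3
  refine ⟨B, hB, fun i hi hiB => ?_⟩
  have hL : 0 ≤ Real.log (N : ℝ) := Real.log_natCast_nonneg N
  have hsub : badset δ N (T i) (T (i + 1)) ⊆ badset (min δ 1) N (T i) (T (i + 1)) := by
    intro n hn
    unfold badset at hn ⊢
    rw [Finset.mem_filter] at hn ⊢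
    refine ⟨hn.1, fun hcon => hn.2 ?_⟩
    intro H H' a1 a2 a3 a4
    refine (hcon H H' a1 a2 a3 a4).trans ?_
    apply div_le_div_of_nonneg_right (min_le_left _ _) hL
  refine (Nat.cast_le.mpr (Finset.card_le_card hsub)).trans ((h i hi hiB).trans ?_)
  apply mul_le_mul_of_nonneg_right (min_le_left _ _) (Nat.cast_nonneg _)

open Classical in
theorem part2 (δ ε : ℝ) (hδ : 0 < δ) (hε : 0 < ε) (hε1 : ε ≤ 1) : ∃ κ : ℝ, 0 < κ ∧
    ∀ᶠ N : ℕ in atTop, ∃ a : ℝ, κ ≤ a ∧ a + κ ≤ ε ∧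
      (((Finset.range N).filter (fun n : ℕ => ¬ ∀ H H' : ℝ, (n : ℝ) ^ a ≤ H →
        H ≤ (n : ℝ) ^ (a + κ) → (n : ℝ) ^ a ≤ H' → H' ≤ (n : ℝ) ^ (a + κ) →
        |(piS n H : ℝ) / H - (piS n H' : ℝ) / H'| ≤ δ / Real.log n)).card : ℝ) ≤ δ * N := by
  set δ₁ : ℝ := min (δ / 4) (1 / 2) with hδ₁
  have hδ₁0 : 0 < δ₁ := lt_min (by positivity) (by norm_num)
  have hδ₁1 : δ₁ ≤ 1 / 2 := min_le_right _ _
  have hδ₁δ : δ₁ ≤ δ / 4 := min_le_left _ _
  obtain ⟨K, hK⟩ := chain1 δ₁ hδ₁0 (by linarith)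
  set R : ℕ := K + 1 with hR
  set u : ℝ := ε / (R + 1) with hu
  have hR0 : (0 : ℝ) < R + 1 := by positivity
  have hu0 : 0 < u := by positivity
  have huR : u * (R + 1) = ε := by rw [hu]; field_simp
  refine ⟨u / 2, by positivity, ?_⟩
  have hNr : Tendsto (fun N : ℕ => (N : ℝ)) atTop atTop := tendsto_natCast_atTop_atTop
  have hp1 : ∀ᶠ N : ℕ in atTop, 2 ≤ (N : ℝ) ^ u :=
    ((tendsto_rpow_atTop hu0).comp hNr).eventually_ge_atTop 2
  have hp2 : ∀ᶠ N : ℕ in atTop, 1 / δ₁ ≤ (N : ℝ) ^ (u / 4) :=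
    ((tendsto_rpow_atTop (by positivity : 0 < u / 4)).comp hNr).eventually_ge_atTop _
  have hp3 : ∀ᶠ N : ℕ in atTop, (K : ℝ) * Real.log N ≤ (N : ℝ) ^ u := by
    have h := (isLittleO_log_rpow_atTop hu0).bound (by positivity : (0 : ℝ) < 1 / (K + 1))
    filter_upwards [hNr.eventually h, eventually_ge_atTop 1] with N hN hN1
    have hN1' : (1 : ℝ) ≤ N := by exact_mod_cast hN1
    rw [Real.norm_of_nonneg (Real.log_nonneg hN1'), Real.norm_of_nonneg (by positivity)] at hN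
    have hl := Real.log_nonneg hN1'
    have hK0 : (0 : ℝ) ≤ K := Nat.cast_nonneg K
    rw [div_mul_eq_mul_div, one_mul, le_div_iff₀ (by positivity)] at hN
    nlinarith
  filter_upwards [hK, hp1, hp2, hp3, eventually_ge_atTop 3,
    hNr.eventually_ge_atTop (2 / δ₁), hNr.eventually_ge_atTop (2 / δ)] with N hN h1 h2 h3 hN3 h4 h5
  have hN3r : (3 : ℝ) ≤ N := by exact_mod_cast hN3
  have hN0 : (0 : ℝ) < N := by linarith
  set T : ℕ → ℝ := fun i => (N : ℝ) ^ (u * ((i : ℝ) + 1)) with hT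
  obtain ⟨B, hB, hBi⟩ := hN R T (by
      simp only [hT]
      simpa using h3) (by
      intro i _
      simp only [hT]
      have e1 : u * (((i + 1 : ℕ) : ℝ) + 1) = u * ((i : ℝ) + 1) + u := by push_cast; ring
      rw [e1, Real.rpow_add hN0]
      have e2 : 0 < (N : ℝ) ^ (u * ((i : ℝ) + 1)) := by positivity
      nlinarith) (by
      simp only [hT]
      rw [huR]
      calc (N : ℝ) ^ ε ≤ (N : ℝ) ^ (1 : ℝ) :=
            Real.rpow_le_rpow_of_exponent_le (by linarith) hε1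
        _ = N := Real.rpow_one _)
  obtain ⟨i, hi1, hi2⟩ : ∃ i ∈ Finset.range R, i ∉ B :=
    Finset.exists_mem_notMem_of_card_lt_card (by rw [Finset.card_range]; omega)
  rw [Finset.mem_range] at hi1
  have hbad := hBi i hi1 hi2
  set b : ℝ := u * ((i : ℝ) + 1) with hb
  have hiR : (i : ℝ) + 1 ≤ R := by exact_mod_cast hi1
  have hbu : u ≤ b := by
    rw [hb]
    have : (0 : ℝ) ≤ i := Nat.cast_nonneg i
    nlinarith
  have hbε : b + u ≤ ε := by
    rw [← huR, hb]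
    nlinarith
  refine ⟨b + u / 4, by linarith, by linarith, ?_⟩
  have hsub : ((Finset.range N).filter (fun n : ℕ => ¬ ∀ H H' : ℝ, (n : ℝ) ^ (b + u / 4) ≤ H →
        H ≤ (n : ℝ) ^ (b + u / 4 + u / 2) → (n : ℝ) ^ (b + u / 4) ≤ H' →
        H' ≤ (n : ℝ) ^ (b + u / 4 + u / 2) →
        |(piS n H : ℝ) / H - (piS n H' : ℝ) / H'| ≤ δ / Real.log n)) ⊆
      badset δ₁ N (T i) (T (i + 1)) ∪ Finset.range ⌈δ₁ * N⌉₊ := by
    intro n hn
    rw [Finset.mem_filter, Finset.mem_range] at hn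
    obtain ⟨hnN, hn⟩ := hn
    rw [Finset.mem_union, Finset.mem_range]
    by_contra hnot
    rw [not_or] at hnot
    obtain ⟨hnb, hnr⟩ := hnot
    have hnge : δ₁ * N ≤ n := by
      have := Nat.le_of_not_lt hnr
      exact (Nat.ceil_le.mp this)
    have hn2 : (2 : ℝ) ≤ n := by
      rw [div_le_iff₀ hδ₁0] at h4
      linarith
    have hnNr : (n : ℝ) ≤ N := by exact_mod_cast hnN.le
    have hlogn : 0 < Real.log n := Real.log_pos (by linarith)
    have hlognN : Real.log n ≤ Real.log N := Real.log_le_log (by linarith) hnNr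
    have hlow : T i ≤ (n : ℝ) ^ (b + u / 4) := by
      simp only [hT]
      have e1 : (δ₁ * N) ^ (b + u / 4) ≤ (n : ℝ) ^ (b + u / 4) :=
        Real.rpow_le_rpow (by positivity) hnge (by positivity)
      refine le_trans ?_ e1
      rw [Real.mul_rpow hδ₁0.le hN0.le, Real.rpow_add hN0]
      have e2 : δ₁ ≤ δ₁ ^ (b + u / 4) := by
        calc δ₁ = δ₁ ^ (1 : ℝ) := (Real.rpow_one _).symm
          _ ≤ δ₁ ^ (b + u / 4) :=
            Real.rpow_le_rpow_of_exponent_ge hδ₁0 (by linarith) (by linarith)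
      rw [div_le_iff₀ hδ₁0] at h2
      have e3 : (0 : ℝ) < (N : ℝ) ^ b := by positivity
      have e4 : (0 : ℝ) < (N : ℝ) ^ (u / 4) := by positivity
      calc (N : ℝ) ^ b = 1 * (N : ℝ) ^ b := (one_mul _).symm
        _ ≤ ((N : ℝ) ^ (u / 4) * δ₁) * (N : ℝ) ^ b := by gcongr
        _ ≤ ((N : ℝ) ^ (u / 4) * δ₁ ^ (b + u / 4)) * (N : ℝ) ^ b := by gcongr
        _ = _ := by ring
    have hhigh : (n : ℝ) ^ (b + u / 4 + u / 2) ≤ T (i + 1) := by
      simp only [hT]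
      calc (n : ℝ) ^ (b + u / 4 + u / 2) ≤ (N : ℝ) ^ (b + u / 4 + u / 2) :=
            Real.rpow_le_rpow (by positivity) hnNr (by positivity)
        _ ≤ (N : ℝ) ^ (u * (((i + 1 : ℕ) : ℝ) + 1)) := by
            apply Real.rpow_le_rpow_of_exponent_le (by linarith)
            push_cast
            rw [hb]
            linarith
    apply hn
    intro H H' a1 a2 a3 a4
    by_contra hcon
    apply hnb
    unfold badset
    rw [Finset.mem_filter, Finset.mem_range]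
    refine ⟨hnN, fun hall => hcon ?_⟩
    refine (hall H H' (hlow.trans a1) (a2.trans hhigh) (hlow.trans a3) (a4.trans hhigh)).trans ?_
    apply div_le_div₀ hδ.le (by linarith) hlogn hlognN
  have hcard := (Finset.card_le_card hsub).trans (Finset.card_union_le _ _)
  rw [Finset.card_range] at hcard
  have hcard' : (((Finset.range N).filter (fun n : ℕ => ¬ ∀ H H' : ℝ,
      (n : ℝ) ^ (b + u / 4) ≤ H → H ≤ (n : ℝ) ^ (b + u / 4 + u / 2) →
      (n : ℝ) ^ (b + u / 4) ≤ H' → H' ≤ (n : ℝ) ^ (b + u / 4 + u / 2) →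
      |(piS n H : ℝ) / H - (piS n H' : ℝ) / H'| ≤ δ / Real.log n)).card : ℝ) ≤
      (badset δ₁ N (T i) (T (i + 1))).card + (⌈δ₁ * N⌉₊ : ℝ) := by exact_mod_cast hcard
  have hceil : (⌈δ₁ * (N : ℝ)⌉₊ : ℝ) < δ₁ * N + 1 := Nat.ceil_lt_add_one (by positivity)
  refine hcard'.trans ?_
  have h6 : δ₁ * N ≤ δ / 4 * N := mul_le_mul_of_nonneg_right hδ₁δ hN0.le
  rw [div_le_iff₀ hδ] at h5
  linarith

open Classical in
theorem part3 (δ : ℝ) (hδ : 0 < δ) (hδ1 : δ < 1) : ∃ c lam : ℝ, 0 < c ∧ 0 < lam ∧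
    ∀ ε η : ℝ, 0 < ε → 0 < η → ∃ κ : ℝ, 0 < κ ∧ ∀ᶠ N : ℕ in atTop, ∃ a : ℝ, κ ≤ a ∧ a + κ ≤ ε ∧
      (((Finset.range N).filter (fun n : ℕ => ¬ ∃ θ : ℝ, 0 ≤ θ ∧
        ∀ H : ℝ, (n : ℝ) ^ a ≤ H → H ≤ (n : ℝ) ^ (a + κ) →
          |(piS n H : ℝ) * Real.log n / H - θ| ≤ η)).card : ℝ) ≤ η * N ∧
      c * N ≤ (((Finset.range N).filter (fun n : ℕ => ∃ θ : ℝ, 1 - δ ≤ θ ∧ θ ≤ lam ∧
        ∀ H : ℝ, (n : ℝ) ^ a ≤ H → H ≤ (n : ℝ) ^ (a + κ) →
          |(piS n H : ℝ) * Real.log n / H - θ| ≤ η)).card : ℝ) := by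
  obtain ⟨K, lam, c, hK, hlam, hc, hall⟩ := Pool.Agent.Results.MP_31d0eb_nt.AllScales.result δ hδ hδ1
  refine ⟨c / 4, lam, by positivity, hlam, fun ε η hε hη => ?_⟩
  obtain ⟨κ, hκ, hp⟩ := part2 (min η (c / 4)) (min ε 1) (lt_min hη (by positivity))
    (lt_min hε one_pos) (min_le_right _ _)
  refine ⟨κ, hκ, ?_⟩
  have hNr : Tendsto (fun N : ℕ => (N : ℝ)) atTop atTop := tendsto_natCast_atTop_atTop
  have hlog : ∀ᶠ n : ℕ in atTop, K * Real.log n ≤ (n : ℝ) ^ κ := by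
    have h := (isLittleO_log_rpow_atTop hκ).bound (by positivity : (0 : ℝ) < 1 / K)
    filter_upwards [hNr.eventually h, eventually_ge_atTop 1] with N hN hN1
    have hN1' : (1 : ℝ) ≤ N := by exact_mod_cast hN1
    rw [Real.norm_of_nonneg (Real.log_nonneg hN1'), Real.norm_of_nonneg (by positivity)] at hN
    rw [div_mul_eq_mul_div, one_mul, le_div_iff₀ hK] at hN
    linarith
  obtain ⟨n₀, hn₀⟩ := hlog.exists_forall_of_atTop
  filter_upwards [hall, hp, hNr.eventually_ge_atTop (4 / c * n₀), hNr.eventually_ge_atTop (4 / c * 2),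
    hNr.eventually_ge_atTop (4 / c)] with N h1 h2 h3 h4 h5
  obtain ⟨a, ha1, ha2, h2⟩ := h2
  have haε : a + κ ≤ ε := ha2.trans (min_le_left _ _)
  have ha1' : a + κ ≤ 1 := ha2.trans (min_le_right _ _)
  have hN0 : (0 : ℝ) < N := lt_of_lt_of_le (by positivity) h5
  refine ⟨a, ha1, haε, ?_, ?_⟩
  · refine (Nat.cast_le.mpr (Finset.card_le_card ?_)).trans (h2.trans
      (mul_le_mul_of_nonneg_right (min_le_left _ _) hN0.le))
    intro n hn
    rw [Finset.mem_filter] at hn ⊢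
    refine ⟨hn.1, fun hosc => hn.2 ?_⟩
    rcases Nat.lt_or_ge 1 n with h1n | h1n
    · have hn1 : (1 : ℝ) < n := by exact_mod_cast h1n
      have hlogn : 0 < Real.log n := Real.log_pos hn1
      have hA0 : (0 : ℝ) < (n : ℝ) ^ a := by positivity
      refine ⟨(piS n ((n : ℝ) ^ a) : ℝ) * Real.log n / (n : ℝ) ^ a, by positivity, ?_⟩
      intro H b1 b2
      have hle : (n : ℝ) ^ a ≤ (n : ℝ) ^ (a + κ) :=
        Real.rpow_le_rpow_of_exponent_le (by linarith) (by linarith)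
      have h6 := hosc H ((n : ℝ) ^ a) b1 b2 le_rfl hle
      have h7 : (piS n H : ℝ) * Real.log n / H -
          (piS n ((n : ℝ) ^ a) : ℝ) * Real.log n / (n : ℝ) ^ a =
          Real.log n * ((piS n H : ℝ) / H - (piS n ((n : ℝ) ^ a) : ℝ) / (n : ℝ) ^ a) := by ring
      rw [h7, abs_mul, abs_of_pos hlogn]
      rw [le_div_iff₀ hlogn] at h6
      have h8 : min η (c / 4) ≤ η := min_le_left _ _
      linarith
    · refine ⟨0, le_rfl, fun H _ _ => ?_⟩
      have hl : Real.log (n : ℝ) = 0 := by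
        interval_cases n <;> simp
      rw [hl]
      simp [hη.le]
  set S1 := (Finset.range N).filter (fun n : ℕ =>
      ∀ H : ℝ, K * Real.log n ≤ H → H ≤ n →
        (1 - δ) * H / Real.log n ≤ piS n H ∧ (piS n H : ℝ) ≤ lam * H / Real.log n) with hS1
  set S2 := (Finset.range N).filter (fun n : ℕ => ¬ ∀ H H' : ℝ, (n : ℝ) ^ a ≤ H →
        H ≤ (n : ℝ) ^ (a + κ) → (n : ℝ) ^ a ≤ H' → H' ≤ (n : ℝ) ^ (a + κ) →
        |(piS n H : ℝ) / H - (piS n H' : ℝ) / H'| ≤ min η (c / 4) / Real.log n) with hS2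
  set S := ((Finset.range N).filter (fun n : ℕ => ∃ θ : ℝ, 1 - δ ≤ θ ∧ θ ≤ lam ∧
        ∀ H : ℝ, (n : ℝ) ^ a ≤ H → H ≤ (n : ℝ) ^ (a + κ) →
          |(piS n H : ℝ) * Real.log n / H - θ| ≤ η)) with hS
  have hsub : S1 ⊆ S ∪ (S2 ∪ Finset.range ⌈c / 4 * N⌉₊) := by
    intro n hn
    rw [hS1, Finset.mem_filter, Finset.mem_range] at hn
    obtain ⟨hnN, hn⟩ := hn
    rw [Finset.mem_union, Finset.mem_union, Finset.mem_range]
    by_contra hnot
    rw [not_or, not_or] at hnot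
    obtain ⟨hnS, hnS2, hnr⟩ := hnot
    apply hnS
    rw [hS, Finset.mem_filter, Finset.mem_range]
    refine ⟨hnN, ?_⟩
    have hnge : c / 4 * N ≤ n := Nat.ceil_le.mp (Nat.le_of_not_lt hnr)
    have hn2 : (2 : ℝ) ≤ n := by
      have : c / 4 * (4 / c * 2) ≤ c / 4 * N := by gcongr
      have e : c / 4 * (4 / c * 2) = 2 := by field_simp
      linarith
    have hnn₀ : n₀ ≤ n := by
      have : c / 4 * (4 / c * n₀) ≤ c / 4 * N := by gcongr
      have e : c / 4 * (4 / c * n₀) = n₀ := by field_simp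
      have : (n₀ : ℝ) ≤ n := by linarith
      exact_mod_cast this
    have hnpos : (0 : ℝ) < n := by linarith
    have hlogn : 0 < Real.log n := Real.log_pos (by linarith)
    have hosc : ∀ H H' : ℝ, (n : ℝ) ^ a ≤ H →
        H ≤ (n : ℝ) ^ (a + κ) → (n : ℝ) ^ a ≤ H' → H' ≤ (n : ℝ) ^ (a + κ) →
        |(piS n H : ℝ) / H - (piS n H' : ℝ) / H'| ≤ min η (c / 4) / Real.log n := by
      by_contra hcon
      apply hnS2
      rw [hS2, Finset.mem_filter, Finset.mem_range]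
      exact ⟨hnN, hcon⟩
    have hA0 : (0 : ℝ) < (n : ℝ) ^ a := by positivity
    have hAlow : K * Real.log n ≤ (n : ℝ) ^ a := by
      refine (hn₀ n hnn₀).trans ?_
      exact Real.rpow_le_rpow_of_exponent_le (by linarith) ha1
    have hAhigh : (n : ℝ) ^ a ≤ n := by
      calc (n : ℝ) ^ a ≤ (n : ℝ) ^ (1 : ℝ) :=
            Real.rpow_le_rpow_of_exponent_le (by linarith) (by linarith)
        _ = n := Real.rpow_one _
    obtain ⟨g1, g2⟩ := hn ((n : ℝ) ^ a) hAlow hAhigh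
    refine ⟨(piS n ((n : ℝ) ^ a) : ℝ) * Real.log n / (n : ℝ) ^ a, ?_, ?_, ?_⟩
    · rw [div_le_iff₀ hlogn] at g1
      rw [le_div_iff₀ hA0]
      exact g1
    · rw [le_div_iff₀ hlogn] at g2
      rw [div_le_iff₀ hA0]
      exact g2
    · intro H b1 b2
      have hH0 : 0 < H := lt_of_lt_of_le hA0 b1
      have hle : (n : ℝ) ^ a ≤ (n : ℝ) ^ (a + κ) :=
        Real.rpow_le_rpow_of_exponent_le (by linarith) (by linarith)
      have h6 := hosc H ((n : ℝ) ^ a) b1 b2 le_rfl hle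
      have h7 : (piS n H : ℝ) * Real.log n / H -
          (piS n ((n : ℝ) ^ a) : ℝ) * Real.log n / (n : ℝ) ^ a =
          Real.log n * ((piS n H : ℝ) / H - (piS n ((n : ℝ) ^ a) : ℝ) / (n : ℝ) ^ a) := by ring
      rw [h7, abs_mul, abs_of_pos hlogn]
      rw [le_div_iff₀ hlogn] at h6
      have h8 : min η (c / 4) ≤ η := min_le_left _ _
      linarith
  have h6 := (Finset.card_le_card hsub).trans (Finset.card_union_le _ _)
  have h7 := Finset.card_union_le S2 (Finset.range ⌈c / 4 * (N : ℝ)⌉₊)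
  rw [Finset.card_range] at h7
  have h8 : S1.card ≤ S.card + (S2.card + ⌈c / 4 * (N : ℝ)⌉₊) := h6.trans (Nat.add_le_add_left h7 _)
  have h9 : (S1.card : ℝ) ≤ S.card + (S2.card + (⌈c / 4 * (N : ℝ)⌉₊ : ℝ)) := by exact_mod_cast h8
  have hceil : (⌈c / 4 * (N : ℝ)⌉₊ : ℝ) < c / 4 * N + 1 := Nat.ceil_lt_add_one (by positivity)
  have h10 : min η (c / 4) * N ≤ c / 4 * N :=
    mul_le_mul_of_nonneg_right (min_le_right _ _) hN0.le
  have h11 : (1 : ℝ) ≤ c / 4 * N := by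
    have : c / 4 * (4 / c) ≤ c / 4 * N := by gcongr
    have e : c / 4 * (4 / c) = 1 := by field_simp
    linarith
  linarith

end Pool.Agent.W123.FS
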